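import Pool.Agent.Q301.NU.RE

/-! An infinite family of differences of c.e. sets with a positive numbering (as differences of
c.e. sets) that has no injective one. -/

set_option autoImplicit false

namespace Pool.Agent.Q301.NU

open Nat.Partrec (Code)
open Nat.Partrec.Code

/-- The number coding a pair. -/
abbrev pr (a b : ℕ) : ℕ := Nat.pair a b

/-- The `e`-th pair of c.e. sets puts `x` into the `i`-th set at stage `t`. -/
def inn (e i x t : ℕ) : Bool := V e.unpair.1 (pr i x) t && !V e.unpair.2 (pr i x) t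

/-- At stage `t`, the sets number `i`, `j` of the `e`-th numbering look like
`{e1, e2}` and `{e2}`. -/
def cond (e i j t : ℕ) : Bool :=
  inn e i (pr e 1) t && inn e i (pr e 2) t && inn e j (pr e 2) t && !inn e j (pr e 1) t

/-- Stagewise version of `B`. -/
def Bs (e s : ℕ) : Bool := cond e s.unpair.1 s.unpair.2.unpair.1 s.unpair.2.unpair.2

/-- The condition `cond` is met at some time. -/
def B (e : ℕ) : Prop := ∃ s, Bs e s = true

/-- Stagewise version of `C`. -/
def Cs (e s : ℕ) : Bool :=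
  cond e s.unpair.1.unpair.1 s.unpair.1.unpair.2 s.unpair.2.unpair.1 &&
    (V e.unpair.2 (pr s.unpair.1.unpair.1 (pr e 2)) s.unpair.2.unpair.2 &&
      V e.unpair.2 (pr s.unpair.1.unpair.2 (pr e 2)) s.unpair.2.unpair.2)

/-- The condition `cond` is met at some time by `i`, `j`, and both give up `e2` for ever. -/
def C (e : ℕ) : Prop := ∃ s, Cs e s = true

theorem B_iff (e : ℕ) : B e ↔ ∃ i j t, cond e i j t = true := by
  constructor
  · rintro ⟨s, hs⟩
    exact ⟨_, _, _, hs⟩
  · rintro ⟨i, j, t, h⟩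
    refine ⟨Nat.pair i (Nat.pair j t), ?_⟩
    simpa [Bs] using h

theorem C_iff (e : ℕ) : C e ↔ ∃ i j t t', cond e i j t = true ∧
    V e.unpair.2 (pr i (pr e 2)) t' = true ∧ V e.unpair.2 (pr j (pr e 2)) t' = true := by
  constructor
  · rintro ⟨s, hs⟩
    simp only [Cs, Bool.and_eq_true] at hs
    exact ⟨_, _, _, _, hs⟩
  · rintro ⟨i, j, t, t', h⟩
    refine ⟨Nat.pair (Nat.pair i j) (Nat.pair t t'), ?_⟩
    simpa only [Cs, Nat.unpair_pair, Bool.and_eq_true] using h

/-- The relation `R 0` of the numbering, stagewise. -/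
def R0s (p : ℕ × ℕ) (s : ℕ) : Bool :=
  (decide (p.2.unpair.1 = p.1.unpair.1) && (decide (p.2.unpair.2 = 0) || (decide (p.2.unpair.2 = 2) ||
      (decide (p.2.unpair.2 = 1) && (decide (p.1.unpair.2 = 0) || Cs p.1.unpair.1 s))))) ||
    (!decide (p.2.unpair.1 = p.1.unpair.1) && (decide (p.2.unpair.2 = 2) && Cs p.2.unpair.1 s))

/-- The relation `R 1` of the numbering, stagewise. -/
def R1s (p : ℕ × ℕ) (s : ℕ) : Bool :=
  decide (p.2.unpair.1 = p.1.unpair.1) && (decide (p.2.unpair.2 = 2) && Bs p.1.unpair.1 s)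

/-- The kernel, stagewise. -/
def Ks (p : ℕ × ℕ) (s : ℕ) : Bool :=
  decide (p.1.unpair.1 = p.2.unpair.1) &&
    (decide (decide (p.1.unpair.2 = 0) = decide (p.2.unpair.2 = 0)) || Cs p.1.unpair.1 s)

/-- The relations of the numbering. -/
def RR : ℕ → ℕ × ℕ → Prop
  | 0 => fun p => ∃ s, R0s p s = true
  | 1 => fun p => ∃ s, R1s p s = true
  | _ + 2 => fun _ => False

theorem R0_iff (p : ℕ × ℕ) : RR 0 p ↔
    (p.2.unpair.1 = p.1.unpair.1 ∧ (p.2.unpair.2 = 0 ∨ p.2.unpair.2 = 2 ∨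
      (p.2.unpair.2 = 1 ∧ (p.1.unpair.2 = 0 ∨ C p.1.unpair.1)))) ∨
    (p.2.unpair.1 ≠ p.1.unpair.1 ∧ p.2.unpair.2 = 2 ∧ C p.2.unpair.1) := by
  simp only [RR, R0s, C, Bool.or_eq_true, Bool.and_eq_true, decide_eq_true_eq, Bool.not_eq_true',
    decide_eq_false_iff_not, exists_or, exists_and_left, exists_const]

theorem R1_iff (p : ℕ × ℕ) : RR 1 p ↔
    (p.2.unpair.1 = p.1.unpair.1 ∧ p.2.unpair.2 = 2 ∧ B p.1.unpair.1) := by
  simp only [RR, R1s, B, Bool.and_eq_true, decide_eq_true_eq, exists_and_left]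

theorem R10 (p : ℕ × ℕ) (h : RR 1 p) : RR 0 p := by
  rw [R1_iff] at h
  rw [R0_iff]
  tauto

/-- The numbering. -/
def ν (k : ℕ) : Set ℕ := {x | RR 0 (k, x) ∧ ¬ RR 1 (k, x)}

theorem mem_own (e r c : ℕ) : pr e c ∈ ν (pr e r) ↔
    (c = 0 ∨ (c = 1 ∧ (r = 0 ∨ C e)) ∨ (c = 2 ∧ ¬ B e)) := by
  simp only [ν, Set.mem_ofPred_eq, R0_iff, R1_iff, pr, Nat.unpair_pair]
  constructor
  · rintro ⟨h, h'⟩
    by_cases hB : B e <;> by_cases hC : C e <;> simp_all <;> tauto
  · intro h
    by_cases hB : B e <;> by_cases hC : C e <;> simp_all <;> omega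

theorem mem_other (e e' r c : ℕ) (hne : e' ≠ e) : pr e' c ∈ ν (pr e r) ↔ (c = 2 ∧ C e') := by
  simp only [ν, Set.mem_ofPred_eq, R0_iff, R1_iff, pr, Nat.unpair_pair]
  constructor
  · rintro ⟨h, h'⟩
    rcases h with h | h
    · exact absurd h.1 hne
    · exact h.2
  · intro h
    exact ⟨Or.inr ⟨hne, h⟩, fun h' => hne h'.1⟩

theorem kernel (k l : ℕ) : ν k = ν l ↔ ∃ s, Ks (k, l) s = true := by
  simp only [Ks, Bool.and_eq_true, Bool.or_eq_true, decide_eq_true_eq, exists_and_left, exists_or,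
    exists_const]
  obtain ⟨e, r, rfl⟩ : ∃ e r, k = pr e r := ⟨_, _, (Nat.pair_unpair k).symm⟩
  obtain ⟨e', r', rfl⟩ : ∃ e r, l = pr e r := ⟨_, _, (Nat.pair_unpair l).symm⟩
  simp only [pr, Nat.unpair_pair]
  constructor
  · intro h
    by_cases hee : e = e'
    · subst hee
      refine ⟨rfl, ?_⟩
      have h1 : pr e 1 ∈ ν (pr e r) ↔ pr e 1 ∈ ν (pr e r') := by
        simp only [pr]
        rw [h]
      rw [mem_own, mem_own] at h1
      by_cases hC : C e
      · exact Or.inr hC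
      · left
        simp only [hC, or_false] at h1
        by_cases hr : r = 0 <;> by_cases hr' : r' = 0 <;> simp_all
    · exfalso
      have h1 : pr e 0 ∈ ν (pr e r) ↔ pr e 0 ∈ ν (pr e' r') := by
        simp only [pr]
        rw [h]
      rw [mem_own, mem_other _ _ _ _ hee] at h1
      simp at h1
  · rintro ⟨rfl, h⟩
    ext x
    obtain ⟨a, c, rfl⟩ : ∃ a c, x = pr a c := ⟨_, _, (Nat.pair_unpair x).symm⟩
    by_cases ha : a = e
    · subst ha
      have h1 := mem_own a r c
      have h2 := mem_own a r' c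
      simp only [pr] at h1 h2 ⊢
      rw [h1, h2]
      rcases h with h | h
      · by_cases hr : r = 0 <;> by_cases hr' : r' = 0 <;> simp_all
      · have hC : C a := h
        simp [hC]
    · have h1 := mem_other e a r c ha
      have h2 := mem_other e a r' c ha
      simp only [pr] at h1 h2 ⊢
      rw [h1, h2]

theorem primrec_inn {α : Type*} [Primcodable α] {e i x t : α → ℕ}
    (he : Primrec e) (hi : Primrec i) (hx : Primrec x) (ht : Primrec t) :
    Primrec (fun a => inn (e a) (i a) (x a) (t a)) := by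
  unfold inn
  have hp : Primrec (fun a => pr (i a) (x a)) := Primrec₂.natPair.comp hi hx
  exact Primrec.and.comp
    (primrec_V (Primrec.fst.comp (Primrec.unpair.comp he)) hp ht)
    (Primrec.not.comp (primrec_V (Primrec.snd.comp (Primrec.unpair.comp he)) hp ht))

theorem primrec_cond {α : Type*} [Primcodable α] {e i j t : α → ℕ}
    (he : Primrec e) (hi : Primrec i) (hj : Primrec j) (ht : Primrec t) :
    Primrec (fun a => cond (e a) (i a) (j a) (t a)) := by
  unfold cond
  have h1 : Primrec (fun a => pr (e a) 1) := Primrec₂.natPair.comp he (Primrec.const 1)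
  have h2 : Primrec (fun a => pr (e a) 2) := Primrec₂.natPair.comp he (Primrec.const 2)
  exact Primrec.and.comp (Primrec.and.comp (Primrec.and.comp (primrec_inn he hi h1 ht)
    (primrec_inn he hi h2 ht)) (primrec_inn he hj h2 ht)) (Primrec.not.comp (primrec_inn he hj h1 ht))

theorem primrec_un1 {α : Type*} [Primcodable α] {e : α → ℕ} (he : Primrec e) :
    Primrec (fun a => (e a).unpair.1) := Primrec.fst.comp (Primrec.unpair.comp he)

theorem primrec_un2 {α : Type*} [Primcodable α] {e : α → ℕ} (he : Primrec e) :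
    Primrec (fun a => (e a).unpair.2) := Primrec.snd.comp (Primrec.unpair.comp he)

theorem primrec_Bs {α : Type*} [Primcodable α] {e s : α → ℕ}
    (he : Primrec e) (hs : Primrec s) : Primrec (fun a => Bs (e a) (s a)) := by
  unfold Bs
  exact primrec_cond he (primrec_un1 hs) (primrec_un1 (primrec_un2 hs)) (primrec_un2 (primrec_un2 hs))

theorem primrec_Cs {α : Type*} [Primcodable α] {e s : α → ℕ}
    (he : Primrec e) (hs : Primrec s) : Primrec (fun a => Cs (e a) (s a)) := by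
  unfold Cs
  have h2 : Primrec (fun a => pr (e a) 2) := Primrec₂.natPair.comp he (Primrec.const 2)
  exact Primrec.and.comp
    (primrec_cond he (primrec_un1 (primrec_un1 hs)) (primrec_un2 (primrec_un1 hs))
      (primrec_un1 (primrec_un2 hs)))
    (Primrec.and.comp
      (primrec_V (primrec_un2 he) (Primrec₂.natPair.comp (primrec_un1 (primrec_un1 hs)) h2)
        (primrec_un2 (primrec_un2 hs)))
      (primrec_V (primrec_un2 he) (Primrec₂.natPair.comp (primrec_un2 (primrec_un1 hs)) h2)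
        (primrec_un2 (primrec_un2 hs))))

theorem primrec_deq {α : Type*} [Primcodable α] {f g : α → ℕ}
    (hf : Primrec f) (hg : Primrec g) : Primrec (fun a => decide (f a = g a)) :=
  (Primrec.eq.comp hf hg).decide

theorem comp_R0s : Computable₂ R0s := by
  have hp1 : Primrec (fun a : (ℕ × ℕ) × ℕ => a.1.1) := Primrec.fst.comp Primrec.fst
  have hp2 : Primrec (fun a : (ℕ × ℕ) × ℕ => a.1.2) := Primrec.snd.comp Primrec.fst
  have hs : Primrec (fun a : (ℕ × ℕ) × ℕ => a.2) := Primrec.snd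
  have h : Primrec (fun a : (ℕ × ℕ) × ℕ => R0s a.1 a.2) := by
    unfold R0s
    exact Primrec.or.comp
      (Primrec.and.comp (primrec_deq (primrec_un1 hp2) (primrec_un1 hp1))
        (Primrec.or.comp (primrec_deq (primrec_un2 hp2) (Primrec.const 0))
          (Primrec.or.comp (primrec_deq (primrec_un2 hp2) (Primrec.const 2))
            (Primrec.and.comp (primrec_deq (primrec_un2 hp2) (Primrec.const 1))
              (Primrec.or.comp (primrec_deq (primrec_un2 hp1) (Primrec.const 0))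
                (primrec_Cs (primrec_un1 hp1) hs))))))
      (Primrec.and.comp (Primrec.not.comp (primrec_deq (primrec_un1 hp2) (primrec_un1 hp1)))
        (Primrec.and.comp (primrec_deq (primrec_un2 hp2) (Primrec.const 2))
          (primrec_Cs (primrec_un1 hp2) hs)))
  exact h.to_comp

theorem comp_R1s : Computable₂ R1s := by
  have hp1 : Primrec (fun a : (ℕ × ℕ) × ℕ => a.1.1) := Primrec.fst.comp Primrec.fst
  have hp2 : Primrec (fun a : (ℕ × ℕ) × ℕ => a.1.2) := Primrec.snd.comp Primrec.fst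
  have hs : Primrec (fun a : (ℕ × ℕ) × ℕ => a.2) := Primrec.snd
  have h : Primrec (fun a : (ℕ × ℕ) × ℕ => R1s a.1 a.2) := by
    unfold R1s
    exact Primrec.and.comp (primrec_deq (primrec_un1 hp2) (primrec_un1 hp1))
      (Primrec.and.comp (primrec_deq (primrec_un2 hp2) (Primrec.const 2))
        (primrec_Bs (primrec_un1 hp1) hs))
  exact h.to_comp

theorem comp_Ks : Computable₂ Ks := by
  have hp1 : Primrec (fun a : (ℕ × ℕ) × ℕ => a.1.1) := Primrec.fst.comp Primrec.fst
  have hp2 : Primrec (fun a : (ℕ × ℕ) × ℕ => a.1.2) := Primrec.snd.comp Primrec.fst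
  have hs : Primrec (fun a : (ℕ × ℕ) × ℕ => a.2) := Primrec.snd
  have h : Primrec (fun a : (ℕ × ℕ) × ℕ => Ks a.1 a.2) := by
    unfold Ks
    exact Primrec.and.comp (primrec_deq (primrec_un1 hp1) (primrec_un1 hp2))
      (Primrec.or.comp
        ((Primrec.eq.comp (primrec_deq (primrec_un2 hp1) (Primrec.const 0))
          (primrec_deq (primrec_un2 hp2) (Primrec.const 0))).decide)
        (primrec_Cs (primrec_un1 hp1) hs))
  exact h.to_comp

theorem RR_re (i : ℕ) : REPred (RR i) := by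
  match i with
  | 0 => exact re_ex comp_R0s
  | 1 => exact re_ex comp_R1s
  | n + 2 =>
    refine (re_ex (f := fun (_ : ℕ × ℕ) (_ : ℕ) => false) ?_).of_eq fun a => ?_
    · exact (Computable.const false).to₂
    · simp [RR]

theorem RR_anti (i j : ℕ) (p : ℕ × ℕ) (hij : i ≤ j) (h : RR j p) : RR i p := by
  match i, j with
  | 0, 0 => exact h
  | 0, 1 => exact R10 p h
  | 1, 1 => exact h
  | _, n + 2 => exact False.elim h
  | 1, 0 => omega
  | n + 2, 0 => omega
  | n + 2, 1 => omega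

theorem odd_card2 {P : ℕ → Prop} (h : P 1 → P 0) :
    Odd (Nat.card {i : Fin 2 // P i.val}) ↔ (P 0 ∧ ¬ P 1) := by
  classical
  rw [Nat.card_eq_fintype_card, Fintype.card_subtype, Finset.card_filter, Fin.sum_univ_two]
  by_cases h0 : P 0 <;> by_cases h1 : P 1 <;> simp_all

/-- No injective numbering by differences of c.e. sets has the range of `ν`. -/
theorem no_inj {S0 S1 : ℕ × ℕ → Prop} (h0 : REPred S0) (h1 : REPred S1)
    (h10 : ∀ p, S1 p → S0 p) {μ : ℕ → Set ℕ} (hμ : ∀ i x, x ∈ μ i ↔ (S0 (i, x) ∧ ¬ S1 (i, x)))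
    (hr : Set.range μ = Set.range ν) (hinj : Function.Injective μ) : False := by
  obtain ⟨c0, hc0⟩ := exists_index h0
  obtain ⟨c1, hc1⟩ := exists_index h1
  obtain ⟨e, he0, he1⟩ : ∃ e : ℕ, e.unpair.1 = c0 ∧ e.unpair.2 = c1 :=
    ⟨Nat.pair c0 c1, by simp, by simp⟩
  have hin : ∀ i x, (∃ s0, ∀ s, s0 ≤ s → (inn e i x s = true ↔ x ∈ μ i)) := by
    intro i x
    by_cases hS0 : S0 (i, x)
    · obtain ⟨s0, hs0⟩ := (hc0 i x).2 hS0
      by_cases hS1 : S1 (i, x)
      · obtain ⟨s1, hs1⟩ := (hc1 i x).2 hS1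
        refine ⟨s1, fun s hs => ?_⟩
        have := V_mono hs hs1
        simp [inn, he0, he1, pr, this, hμ, hS1]
      · refine ⟨s0, fun s hs => ?_⟩
        have h0' := V_mono hs hs0
        have h1' : V c1 (Nat.pair i x) s = false := by
          by_contra hcon
          exact hS1 ((hc1 i x).1 ⟨s, by simpa using hcon⟩)
        simp [inn, he0, he1, pr, h0', h1', hμ, hS1, hS0]
    · refine ⟨0, fun s _ => ?_⟩
      have h0' : V c0 (Nat.pair i x) s = false := by
        by_contra hcon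
        exact hS0 ((hc0 i x).1 ⟨s, by simpa using hcon⟩)
      simp [inn, he0, he1, pr, h0', hμ, hS0]
  have hin0 : ∀ i x s, inn e i x s = true → S0 (i, x) := by
    intro i x s h
    simp only [inn, he0, he1, Bool.and_eq_true] at h
    exact (hc0 i x).1 ⟨s, h.1⟩
  obtain ⟨i, hi⟩ : ν (pr e 0) ∈ Set.range μ := hr ▸ ⟨_, rfl⟩
  obtain ⟨j, hj⟩ : ν (pr e 1) ∈ Set.range μ := hr ▸ ⟨_, rfl⟩
  have hB : B e := by
    by_contra hB
    have hC : ¬ C e := by
      intro hC
      rw [C_iff] at hC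
      obtain ⟨i', j', t, t', h, -⟩ := hC
      exact hB ((B_iff e).2 ⟨i', j', t, h⟩)
    have m1 : pr e 1 ∈ μ i := by rw [hi, mem_own]; simp
    have m2 : pr e 2 ∈ μ i := by rw [hi, mem_own]; simp [hB]
    have m3 : pr e 2 ∈ μ j := by rw [hj, mem_own]; simp [hB]
    have m4 : pr e 1 ∉ μ j := by rw [hj, mem_own]; simp [hC]
    obtain ⟨s1, hs1⟩ := hin i (pr e 1)
    obtain ⟨s2, hs2⟩ := hin i (pr e 2)
    obtain ⟨s3, hs3⟩ := hin j (pr e 2)
    obtain ⟨s4, hs4⟩ := hin j (pr e 1)
    apply hB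
    rw [B_iff]
    refine ⟨i, j, s1 + s2 + s3 + s4, ?_⟩
    have q1 := (hs1 (s1 + s2 + s3 + s4) (by omega)).2 m1
    have q2 := (hs2 (s1 + s2 + s3 + s4) (by omega)).2 m2
    have q3 := (hs3 (s1 + s2 + s3 + s4) (by omega)).2 m3
    have q4 : ¬ inn e j (pr e 1) (s1 + s2 + s3 + s4) = true :=
      fun h => m4 ((hs4 (s1 + s2 + s3 + s4) (by omega)).1 h)
    rw [Bool.not_eq_true] at q4
    simp [cond, q1, q2, q3, q4]
  have hC : C e := by
    by_contra hC
    have hno : ∀ i, pr e 2 ∉ μ i := by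
      intro i' hi'
      obtain ⟨k, hk⟩ : μ i' ∈ Set.range ν := hr ▸ ⟨_, rfl⟩
      rw [← hk] at hi'
      obtain ⟨a, r, rfl⟩ : ∃ e r, k = pr e r := ⟨_, _, (Nat.pair_unpair k).symm⟩
      by_cases ha : e = a
      · subst ha
        rw [mem_own] at hi'
        simp [hB] at hi'
      · rw [mem_other _ _ _ _ ha] at hi'
        exact hC hi'.2
    obtain ⟨i', j', t, ht⟩ := (B_iff e).1 hB
    have ht' := ht
    simp only [cond, Bool.and_eq_true] at ht'
    have k1 := hin0 _ _ _ ht'.1.1.2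
    have k2 := hin0 _ _ _ ht'.1.2
    have k3 : S1 (i', pr e 2) := by
      by_contra hcon
      exact hno i' ((hμ _ _).2 ⟨k1, hcon⟩)
    have k4 : S1 (j', pr e 2) := by
      by_contra hcon
      exact hno j' ((hμ _ _).2 ⟨k2, hcon⟩)
    obtain ⟨t1, ht1⟩ := (hc1 _ _).2 k3
    obtain ⟨t2, ht2⟩ := (hc1 _ _).2 k4
    apply hC
    rw [C_iff, he1]
    exact ⟨i', j', t, t1 + t2, ht, V_mono (by omega) ht1, V_mono (by omega) ht2⟩
  obtain ⟨i', j', t, t', h, hi', hj'⟩ := (C_iff e).1 hC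
  rw [he1] at hi' hj'
  have k1 : S1 (i', pr e 2) := (hc1 _ _).1 ⟨_, hi'⟩
  have k2 : S1 (j', pr e 2) := (hc1 _ _).1 ⟨_, hj'⟩
  have key : ∀ i, S1 (i, pr e 2) → μ i = ν (pr e 0) := by
    intro i' hi'
    obtain ⟨k, hk⟩ : μ i' ∈ Set.range ν := hr ▸ ⟨_, rfl⟩
    have hnot : pr e 2 ∉ μ i' := fun h => ((hμ _ _).1 h).2 hi'
    rw [← hk] at hnot ⊢
    obtain ⟨a, r, rfl⟩ : ∃ e r, k = pr e r := ⟨_, _, (Nat.pair_unpair k).symm⟩
    by_cases ha : e = a
    · subst ha
      rw [kernel]
      obtain ⟨s, hs⟩ := hC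
      exact ⟨s, by simp [Ks, hs]⟩
    · rw [mem_other _ _ _ _ ha] at hnot
      exact absurd ⟨rfl, hC⟩ hnot
  have hij : i' = j' := hinj ((key i' k1).trans (key j' k2).symm)
  subst hij
  simp only [cond, Bool.and_eq_true, Bool.not_eq_true'] at h
  rw [h.1.1.1] at h
  exact absurd h.2 (by decide)

theorem ν_infinite : (Set.range ν).Infinite := by
  refine Set.infinite_of_injective_forall_mem (f := fun e => ν (pr e 0)) ?_ (fun e => ⟨_, rfl⟩)
  intro e e' h
  have h' : ν (pr e 0) = ν (pr e' 0) := h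
  rw [kernel] at h'
  obtain ⟨s, hs⟩ := h'
  simp only [Ks, pr, Nat.unpair_pair, Bool.and_eq_true, decide_eq_true_eq] at hs
  exact hs.1

end Pool.Agent.Q301.NU
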