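import Mathlib

/-! Recursion-theoretic basics for the results on numberings: a stagewise view of the
recursively enumerable relations. -/

set_option autoImplicit false

namespace Pool.Agent.Q301.NU

open Nat.Partrec (Code)
open Nat.Partrec.Code

/-- The program number `c` has halted on `y` within `s` steps. -/
def V (c y s : ℕ) : Bool := (evaln s (Denumerable.ofNat Code c) y).isSome

theorem V_mono {c y s s' : ℕ} (h : s ≤ s') (hv : V c y s = true) : V c y s' = true := by
  unfold V at hv ⊢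
  obtain ⟨v, hv⟩ := Option.isSome_iff_exists.1 hv
  exact Option.isSome_iff_exists.2 ⟨v, evaln_mono h hv⟩

theorem V_zero (c y : ℕ) : V c y 0 = false := by
  unfold V
  simp [evaln]

theorem V_iff (c y : ℕ) : (∃ s, V c y s = true) ↔ (eval (Denumerable.ofNat Code c) y).Dom := by
  rw [Part.dom_iff_mem]
  constructor
  · rintro ⟨s, hs⟩
    obtain ⟨v, hv⟩ := Option.isSome_iff_exists.1 hs
    exact ⟨v, evaln_complete.2 ⟨s, hv⟩⟩
  · rintro ⟨v, hv⟩
    obtain ⟨s, hs⟩ := evaln_complete.1 hv
    exact ⟨s, Option.isSome_iff_exists.2 ⟨v, hs⟩⟩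

theorem primrec_V {α : Type*} [Primcodable α] {c y s : α → ℕ}
    (hc : Primrec c) (hy : Primrec y) (hs : Primrec s) :
    Primrec (fun a => V (c a) (y a) (s a)) :=
  Primrec.option_isSome.comp
    (primrec_evaln.comp ((hs.pair ((Primrec.ofNat Code).comp hc)).pair hy))

theorem re_ex {α : Type*} [Primcodable α] {f : α → ℕ → Bool} (hf : Computable₂ f) :
    REPred (fun a => ∃ s, f a s = true) := by
  have h : Partrec (fun a => Nat.rfind (fun s => (Part.some (f a s) : Part Bool))) :=
    Partrec.rfind hf.partrec₂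
  refine (Partrec.dom_re h).of_eq fun a => ?_
  refine (Nat.rfind_dom (p := fun s => Part.some (f a s))).trans ?_
  constructor
  · rintro ⟨s, hs, -⟩
    exact ⟨s, (Part.mem_some_iff.1 hs).symm⟩
  · rintro ⟨s, hs⟩
    exact ⟨s, Part.mem_some_iff.2 hs.symm, fun _ => trivial⟩

theorem exists_index {p : ℕ × ℕ → Prop} (hp : REPred p) :
    ∃ c : ℕ, ∀ i x : ℕ, (∃ s, V c (Nat.pair i x) s = true) ↔ p (i, x) := by
  obtain ⟨cc, hcc⟩ := exists_code.1 hp
  refine ⟨Encodable.encode cc, fun i x => ?_⟩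
  rw [V_iff, Denumerable.ofNat_encode, hcc]
  simp only [Encodable.decode_prod_val, Nat.unpair_pair, Encodable.decode_nat, Option.map_some,
    Option.bind_some, Part.coe_some, Part.bind_some, Part.map_Dom]
  exact ⟨fun h => h.1, fun h => ⟨h, trivial⟩⟩

theorem exists_index1 {p : ℕ → Prop} (hp : REPred p) :
    ∃ c : ℕ, ∀ x : ℕ, (∃ s, V c x s = true) ↔ p x := by
  obtain ⟨cc, hcc⟩ := exists_code.1 hp
  refine ⟨Encodable.encode cc, fun x => ?_⟩
  rw [V_iff, Denumerable.ofNat_encode, hcc]
  simp only [Encodable.decode_nat, Part.coe_some, Part.bind_some, Part.map_Dom]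
  exact ⟨fun h => h.1, fun h => ⟨h, trivial⟩⟩

end Pool.Agent.Q301.NU
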